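import Mathlib
import Pool.Agent.X37.RB.One

set_option autoImplicit false

/-!
# Four squares with `⌊β ^ (x + y) + β ^ (z + w)⌋ + 1` prime for real bases `β`

For `β = 2` the integer `⌊β ^ (x + y) + β ^ (z + w)⌋ + 1` is the number `2 ^ (x + y) + 2 ^ (z + w) + 1`
of the problem.  We prove that every large odd `n` has an admissible quadruple for a positive
proportion of the bases of every interval of bases (uniformly in the interval), and that for every
sequence of odd numbers tending to infinity and almost every base `β > 1` the members of the sequence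
which have an admissible quadruple have positive upper density in the sequence.
-/

namespace Pool.Agent.Results.MP_1e1427_nt.AlmostEveryBase

open MeasureTheory Filter Topology
open Pool.Agent.X37.RB

/-- `n` has a quadruple `(x, y, z, w)` with `n = x² + y² + z² + w²` for which
`⌊β ^ (x + y) + β ^ (z + w)⌋ + 1` is prime. -/
def Admissible (β : ℝ) (n : ℕ) : Prop := ∃ x y z w : ℕ, n = x ^ 2 + y ^ 2 + z ^ 2 + w ^ 2 ∧
  (⌊β ^ (x + y) + β ^ (z + w)⌋₊ + 1).Prime

/-- for the base `2` this is admissibility in the sense of the problem -/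
theorem admissible_two (n : ℕ) : Admissible 2 n ↔ ∃ x y z w : ℕ, n = x ^ 2 + y ^ 2 + z ^ 2 + w ^ 2 ∧
    (2 ^ (x + y) + 2 ^ (z + w) + 1).Prime := by
  unfold Admissible
  have e : ∀ x y z w : ℕ, ⌊(2 : ℝ) ^ (x + y) + 2 ^ (z + w)⌋₊ = 2 ^ (x + y) + 2 ^ (z + w) := by
    intro x y z w
    have : (2 : ℝ) ^ (x + y) + 2 ^ (z + w) = ((2 ^ (x + y) + 2 ^ (z + w) : ℕ) : ℝ) := by push_cast; ring
    rw [this, Nat.floor_natCast]
  simp only [e]

open Classical in
/-- the number of `k < K` for which `N k` has an admissible quadruple for the base `β` -/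
noncomputable def count (β : ℝ) (N : ℕ → ℕ) (K : ℕ) : ℕ :=
  ((Finset.range K).filter (fun k => Admissible β (N k))).card

lemma adm_iff (β : ℝ) (n : ℕ) : Adm1 β n ↔ Admissible β n := by
  unfold Adm1 Admissible
  simp only [eq_comm]

/-- **Odd numbers with an admissible quadruple, for real bases.** -/
theorem result :
    (∀ A B : ℝ, 1 < A → A < B → ∃ c : ℝ, 0 < c ∧ ∀ u v : ℝ, A ≤ u → u < v → v ≤ B →
      ∃ n₀ : ℕ, ∀ n ≥ n₀, Odd n → c * (v - u) ≤ volume.real {β : ℝ | u < β ∧ β ≤ v ∧ Admissible β n}) ∧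
    (∀ N : ℕ → ℕ, (∀ k, Odd (N k)) → Tendsto N atTop atTop → ∀ᵐ β : ℝ, 1 < β →
      ∃ c : ℝ, 0 < c ∧ ∃ᶠ K : ℕ in atTop, c * K ≤ count β N K) := by
  refine ⟨fun A B hA hAB => ?_, fun N hN hNt => ?_⟩
  · obtain ⟨c, hc, h⟩ := one_measure hA hAB
    refine ⟨c, hc, fun u v hu huv hv => ?_⟩
    obtain ⟨n0, hn0⟩ := h u v hu huv hv
    refine ⟨n0, fun n hn hodd => ?_⟩
    have h1 := hn0 n hn hodd
    have e : {β : ℝ | u < β ∧ β ≤ v ∧ Admissible β n} = {β : ℝ | Adm1 β n} ∩ Set.Ioc u v := by
      ext β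
      simp only [Set.mem_ofPred_eq, Set.mem_inter_iff, Set.mem_Ioc, adm_iff]
      tauto
    rw [e]
    exact h1
  · filter_upwards [one_density hN hNt] with β hβ hβ1
    obtain ⟨c, hc, h⟩ := hβ hβ1
    refine ⟨c, hc, h.mono fun K hK => ?_⟩
    have e : cnt (fun k => {β : ℝ | Adm1 β (N k)}) K β = count β N K := by
      classical
      unfold cnt count
      congr 1
      ext k
      simp only [Finset.mem_filter, Set.mem_ofPred_eq, adm_iff]
    rw [← e]
    exact hK

end Pool.Agent.Results.MP_1e1427_nt.AlmostEveryBase
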