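import Pool.Agent.X9.SQ.Fin1

set_option autoImplicit false

/-!
# MP_1e1427_nt: prime factors of `2^(x+y) + 2^(z+w) + 1` up to `c (log n)²`

Every large odd `n` has at least `n ^ (1 - ε)` quadruples of natural numbers with
`n = x² + y² + z² + w²` for which all prime factors of `2^(x+y) + 2^(z+w) + 1` are larger than
`c (log n)²`. The starting result BeyondLogarithm has `c log n log log n / log log log n`.

The proof. Let `Y = c₁ log n`, `Z = c₂ (log n)²` with `c₂` small, and `K = lcm(1, ..., Y)³`. The
quadruples are taken in the residue class of the starting result AllPrimesToLog (`K ∣ x + y`,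
`2^v ∣ z + w - 1` for the power `2^v` of `2` in `K`), so that no prime `q` with `ord_q(2) ∣ K` divides.
For the other primes `q ≤ Z` one has `ord_q(2) = l e` with a prime `l > Y` and `e ∣ K`, and for a
given residue of `x + y` modulo `l` at most one residue of `z + w` modulo `l` is bad. So the bad
residues modulo `l` have density at most `100 Z / l²`, and the sum over the primes `l > Y` is
`O(Z / (Y log Y))`. They are sifted by Brun's pure sieve; the moduli are products of
`O(Z / (Y log Y))` primes `l ≤ Z`, a small power of `n`. The representations are counted in residue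
classes by the circle method of the starting library, which does not see the signs of the
coordinates: the `25` rational rotations that bring every vector to the nonnegative orthant are the
identity modulo `4K`, and the sieve is applied to all `25` rotated vectors at the same time; the
denominators of the rotations are chosen, by the same sieve, free of prime factors `l` from
`(Y, Z]`. For a zero residue modulo `l` (when `l² ∣ n`) there is nothing to sift.
-/

namespace Pool.Agent.Results.MP_1e1427_nt.BeyondLogSquared

theorem result (ε : ℝ) (hε : 0 < ε) : ∃ c : ℝ, 0 < c ∧ ∃ n₀ : ℕ, ∀ n : ℕ, n₀ ≤ n → Odd n →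
    ∃ S : Finset (ℕ × ℕ × ℕ × ℕ), (n : ℝ) ^ (1 - ε) ≤ (S.card : ℝ) ∧
      ∀ x y z w : ℕ, (x, y, z, w) ∈ S → n = x ^ 2 + y ^ 2 + z ^ 2 + w ^ 2 ∧
        ∀ q : ℕ, q.Prime → q ∣ 2 ^ (x + y) + 2 ^ (z + w) + 1 → c * Real.log n ^ 2 < q :=
  Pool.Agent.X9.SQ.fin1 ε hε

end Pool.Agent.Results.MP_1e1427_nt.BeyondLogSquared
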