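import Pool.Agent.X9.SQ.FinA

set_option autoImplicit false

/-!
# MP_1e1427_nt: prime factors of `2^(x+y) + 2^(z+w) + 1` up to any power of `log n`

Let `1/2 ≤ κ < 1` and `A = 1 / (1 - κ)`. Every large odd `n` has at least `n ^ (1 - ε)` quadruples of
natural numbers with `n = x² + y² + z² + w²` for which no prime `q ≤ c (log n)^A` for which the order
of `2` modulo `q` has a prime factor `l ≥ 20 q ^ κ` divides `2^(x+y) + 2^(z+w) + 1`. The exponent `A`
of `log n` is as large as one likes.

The proof. Let `Y = c₁ log n`, `Z = c (log n)^A` with a small `c`, and `K = lcm(1, ..., Y)³`. The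
quadruples are taken in the residue class of the starting result AllPrimesToLog (`K ∣ x + y`,
`2^v ∣ z + w - 1` for the power `2^v` of `2` in `K`), so that no prime `q` with `ord_q(2) ∣ K`
divides. For a prime `q ≤ Z` with a prime factor `l ≥ 20 q ^ κ` of `ord_q(2) = l e` one has
`e ≤ q ^ (1 - κ) ≤ Y`, so `e ∣ K`, and for a given residue of `x + y` modulo `l > Y` at most one
residue of `z + w` modulo `l` is bad. The sum of the densities of the bad residues is at most
`∑_q 5 q ^ (-κ) = O(Z ^ (1 - κ) / log Z)` (sum over the primes `q ≤ Z`, by Chebyshev's bound), since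
`l` is determined by `q` (`l² > q`). This is at most a small multiple of `log n / log Z`, so that
Brun's pure sieve over these `l` uses moduli that are a small power of `n`. The representations are
counted in residue classes by the circle method of the starting library, and the signs of the
coordinates are handled by the `25` rational rotations as in BeyondLogSquared.
-/

namespace Pool.Agent.Results.MP_1e1427_nt.LargePrimeInOrder

theorem result (κ : ℝ) (hκ : 1 / 2 ≤ κ) (hκ1 : κ < 1) (ε : ℝ) (hε : 0 < ε) :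
    ∃ c : ℝ, 0 < c ∧ ∃ n₀ : ℕ, ∀ n : ℕ, n₀ ≤ n → Odd n →
    ∃ S : Finset (ℕ × ℕ × ℕ × ℕ), (n : ℝ) ^ (1 - ε) ≤ (S.card : ℝ) ∧
      ∀ x y z w : ℕ, (x, y, z, w) ∈ S → n = x ^ 2 + y ^ 2 + z ^ 2 + w ^ 2 ∧
        ∀ q : ℕ, q.Prime → q ∣ 2 ^ (x + y) + 2 ^ (z + w) + 1 →
          (q : ℝ) ≤ c * Real.log n ^ (1 / (1 - κ)) →
            ∀ l : ℕ, l.Prime → l ∣ orderOf (2 : ZMod q) → (l : ℝ) < 20 * (q : ℝ) ^ κ :=
  Pool.Agent.X9.SQ.finA κ hκ hκ1 ε hε

end Pool.Agent.Results.MP_1e1427_nt.LargePrimeInOrder
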