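import Mathlib
import Pool.Agent.X9.SQ.Fin1
import Pool.Agent.X28.SQ.Quad
import Pool.Agent.X28.SQ.One

/-!
# Four squares with `2^(x+y) + 2^(z+w) + t` prime, for every large odd `n` and many `t`

For every large odd `n` and `X` between `2^(24 √n)` and `exp (n^(11/20))`, for at least `c X / log n` of the `t ≤ X` there
are at least `c n^(11/20) / log X` quadruples with `n = x² + y² + z² + w²` for which `2^(x+y) + 2^(z+w) + t` is a prime and
for which, in addition, `2^(x+y) + 2^(z+w) + 1` has no prime factor up to `c (log n)²`.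

The proof. The starting library gives `n^(1-ε)` quadruples with the last property. The number of quadruples with given
`x + y`, `z + w` is at most the number of lattice points on a circle, which is `O(n^(2/5))` (a triangle of lattice points
inscribed in a circle of radius `R` has a side longer than `R^(1/3)`), so that there are more than `n^(11/20)` different
values `2^(x+y) + 2^(z+w)`, much more than `log X`. The second moment over `t` is bounded by Romanoff's method.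
-/

set_option autoImplicit false

open Finset

namespace Pool.Agent.Results.MP_1e1427_nt.ManyConstants

/-- the quadruples `(x, y, z, w)` with `n = x² + y² + z² + w²` for which `2^(x+y) + 2^(z+w) + t` is a prime and
`2^(x+y) + 2^(z+w) + 1` has no prime factor `q ≤ c (log n)²` -/
def Quad (c : ℝ) (n t : ℕ) : Set (ℕ × ℕ × ℕ × ℕ) :=
  {v | n = v.1 ^ 2 + v.2.1 ^ 2 + v.2.2.1 ^ 2 + v.2.2.2 ^ 2 ∧
    (2 ^ (v.1 + v.2.1) + 2 ^ (v.2.2.1 + v.2.2.2) + t).Prime ∧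
    ∀ q : ℕ, q.Prime → q ∣ 2 ^ (v.1 + v.2.1) + 2 ^ (v.2.2.1 + v.2.2.2) + 1 → c * Real.log n ^ 2 < q}

theorem quad_finite (c : ℝ) (n t : ℕ) : (Quad c n t).Finite := by
  apply (Set.finite_Iic ((n, n, n, n) : ℕ × ℕ × ℕ × ℕ)).subset
  rintro ⟨x, y, z, w⟩ h
  have h1 : n = x ^ 2 + y ^ 2 + z ^ 2 + w ^ 2 := h.1
  rw [Set.mem_Iic]
  refine ⟨?_, ?_, ?_, ?_⟩
  · show x ≤ n
    nlinarith
  · show y ≤ n
    nlinarith
  · show z ≤ n
    nlinarith
  · show w ≤ n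
    nlinarith

open Classical in
/-- There are `c > 0` and `n₀` such that for every odd `n ≥ n₀` and every `X` with `2^(24 √n) ≤ X` and
`log X ≤ n^(11/20)`, for at least `c X / log n` of the `t`, `1 ≤ t ≤ X`, there are at least `c n^(11/20) / log X`
quadruples `(x, y, z, w)` of natural numbers with `n = x² + y² + z² + w²` for which `2^(x+y) + 2^(z+w) + t` is a prime,
and for which `2^(x+y) + 2^(z+w) + 1` has no prime factor `q ≤ c (log n)²`. -/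
theorem result : ∃ c : ℝ, 0 < c ∧ ∃ n₀ : ℕ, ∀ n : ℕ, n₀ ≤ n → Odd n → ∀ X : ℕ,
    (2 : ℝ) ^ (24 * √(n : ℝ)) ≤ X → Real.log X ≤ (n : ℝ) ^ (11 / 20 : ℝ) →
    c * X / Real.log n ≤ (((Icc 1 X).filter fun t =>
      c * (n : ℝ) ^ (11 / 20 : ℝ) / Real.log X ≤ ((Quad c n t).ncard : ℝ)).card : ℝ) := by
  obtain ⟨c1, hc1, n1, h1⟩ := Pool.Agent.X9.SQ.fin1 (1 / 25) (by norm_num)
  obtain ⟨c2, hc2, X0, h2⟩ := Pool.Agent.X28.SQ.sparse1
  obtain ⟨n2, hn2, h3⟩ := Pool.Agent.X28.SQ.sizes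
  have hev : ∀ᶠ x : ℝ in Filter.atTop, (264 : ℝ) ≤ x ^ (1 / 100 : ℝ) :=
    (tendsto_rpow_atTop (by norm_num : (0 : ℝ) < 1 / 100)).eventually_ge_atTop 264
  obtain ⟨x3, hx3⟩ := Filter.eventually_atTop.1 hev
  refine ⟨min c1 c2, lt_min hc1 hc2, max (max n1 n2) (max ⌈x3⌉₊ (max X0 3)), ?_⟩
  intro n hn hodd X hX hlX
  obtain ⟨S, hScard, hSq⟩ := h1 n (by omega) hodd
  obtain ⟨g1, g2, g3, g4, g5⟩ := h3 n (by omega) X hX
  have hn1 : 1 ≤ n := by omega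
  have hnr : (3 : ℝ) ≤ n := by exact_mod_cast (show 3 ≤ n by omega)
  have hn0 : (0 : ℝ) < n := by linarith
  have hx3n : x3 ≤ n := (Nat.le_ceil _).trans (by exact_mod_cast (show ⌈x3⌉₊ ≤ n by omega))
  have h264 := hx3 n hx3n
  obtain ⟨A, hA⟩ : ∃ A, A = Nat.sqrt (2 * n) := ⟨_, rfl⟩
  rw [← hA] at g2 g3 g4 g5
  obtain ⟨T, hT⟩ : ∃ T : Finset ℕ, T = S.image fun v => 2 ^ (v.1 + v.2.1) + 2 ^ (v.2.2.1 + v.2.2.2) := ⟨_, rfl⟩
  have hSn : ∀ v ∈ S, n = v.1 ^ 2 + v.2.1 ^ 2 + v.2.2.1 ^ 2 + v.2.2.2 ^ 2 :=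
    fun v hv => (hSq v.1 v.2.1 v.2.2.1 v.2.2.2 hv).1
  -- the number of the values
  have hTcard : (n : ℝ) ^ (11 / 20 : ℝ) ≤ #T := by
    have e1 := Pool.Agent.X28.SQ.many_values n hn1 S hSn
    rw [← hT] at e1
    have e2 : (n : ℝ) ^ (1 - 1 / 25 : ℝ) = (n : ℝ) ^ (2 / 5 : ℝ) * ((n : ℝ) ^ (1 / 100 : ℝ) * (n : ℝ) ^ (11 / 20 : ℝ)) := by
      rw [← Real.rpow_add hn0, ← Real.rpow_add hn0]
      norm_num
    have e3 : 0 < (n : ℝ) ^ (2 / 5 : ℝ) := by positivity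
    have e4 : 0 < (n : ℝ) ^ (11 / 20 : ℝ) := by positivity
    have e5 : (n : ℝ) ^ (2 / 5 : ℝ) * (264 * (n : ℝ) ^ (11 / 20 : ℝ)) ≤ (n : ℝ) ^ (2 / 5 : ℝ) * (264 * #T) := by
      calc (n : ℝ) ^ (2 / 5 : ℝ) * (264 * (n : ℝ) ^ (11 / 20 : ℝ)) ≤
          (n : ℝ) ^ (2 / 5 : ℝ) * ((n : ℝ) ^ (1 / 100 : ℝ) * (n : ℝ) ^ (11 / 20 : ℝ)) := by gcongr
        _ = (n : ℝ) ^ (1 - 1 / 25 : ℝ) := e2.symm
        _ ≤ #S := hScard
        _ ≤ 264 * (n : ℝ) ^ (2 / 5 : ℝ) * #T := e1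
        _ = _ := by ring
    have e6 := le_of_mul_le_mul_left e5 e3
    linarith
  -- the size of the values
  have hTY : T ⊆ Icc 1 (2 ^ (A + 2)) := by
    intro s hs
    rw [hT, mem_image] at hs
    obtain ⟨v, hv, rfl⟩ := hs
    have e1 := hSn v hv
    have e2 : v.1 + v.2.1 ≤ A := by
      rw [hA, Nat.le_sqrt]
      nlinarith [sq_nonneg ((v.1 : ℤ) - v.2.1), two_mul_le_add_sq v.1 v.2.1, Nat.zero_le (v.2.2.1 ^ 2), Nat.zero_le (v.2.2.2 ^ 2)]
    have e3 : v.2.2.1 + v.2.2.2 ≤ A := by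
      rw [hA, Nat.le_sqrt]
      nlinarith [two_mul_le_add_sq v.2.2.1 v.2.2.2, Nat.zero_le (v.1 ^ 2), Nat.zero_le (v.2.1 ^ 2)]
    have e4 : 2 ^ (v.1 + v.2.1) ≤ 2 ^ A := Nat.pow_le_pow_right (by norm_num) e2
    have e5 : 2 ^ (v.2.2.1 + v.2.2.2) ≤ 2 ^ A := Nat.pow_le_pow_right (by norm_num) e3
    have e6 : 0 < 2 ^ (v.1 + v.2.1) := Nat.two_pow_pos _
    have e7 : 2 ^ (A + 2) = 4 * 2 ^ A := by rw [pow_add]; ring
    have e8 : 0 < 2 ^ (v.2.2.1 + v.2.2.2) := Nat.two_pow_pos _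
    rw [mem_Icc, e7]
    constructor <;> omega
  have hmain := h2 X (2 ^ (A + 2)) T (by omega) g3 hTY g2 (hlX.trans hTcard)
  have hlX0 : 0 < Real.log X := Real.log_pos (by exact_mod_cast (show 1 < X by omega))
  have hln0 : 0 < Real.log n := Real.log_pos (by linarith)
  have hk1 : min c1 c2 * X / Real.log n ≤
      c2 * X / Real.log (Real.log ((2 ^ (A + 2) : ℕ) : ℝ)) :=
    div_le_div₀ (by positivity) (mul_le_mul_of_nonneg_right (min_le_right _ _) (Nat.cast_nonneg _)) g4 g5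
  refine hk1.trans (hmain.trans ?_)
  rw [Nat.cast_le]
  apply card_le_card
  intro t ht
  rw [mem_filter] at ht ⊢
  refine ⟨ht.1, ?_⟩
  have hk2 : min c1 c2 * (n : ℝ) ^ (11 / 20 : ℝ) / Real.log X ≤ c2 * #T / Real.log X := by
    apply div_le_div_of_nonneg_right _ hlX0.le
    exact mul_le_mul (min_le_right _ _) hTcard (by positivity) hc2.le
  refine hk2.trans (ht.2.trans ?_)
  rw [Nat.cast_le]
  have hsub : ((T.filter fun s => (s + t).Prime : Finset ℕ) : Set ℕ) ⊆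
      (fun v : ℕ × ℕ × ℕ × ℕ => 2 ^ (v.1 + v.2.1) + 2 ^ (v.2.2.1 + v.2.2.2)) '' Quad (min c1 c2) n t := by
    intro s hs
    rw [mem_coe, mem_filter, hT, mem_image] at hs
    obtain ⟨⟨v, hv, rfl⟩, hp⟩ := hs
    refine ⟨v, ⟨hSn v hv, hp, fun q hq hqd => ?_⟩, rfl⟩
    refine lt_of_le_of_lt ?_ ((hSq v.1 v.2.1 v.2.2.1 v.2.2.2 hv).2 q hq hqd)
    exact mul_le_mul_of_nonneg_right (min_le_left _ _) (by positivity)
  have hfin := quad_finite (min c1 c2) n t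
  have e1 := Set.ncard_le_ncard hsub (hfin.image _)
  rw [Set.ncard_coe_finset] at e1
  exact e1.trans (Set.ncard_image_le hfin)

end Pool.Agent.Results.MP_1e1427_nt.ManyConstants
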